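import Mathlib
import Pool.Agent.Results.MP_e0d2b2_an.Main
import Pool.Agent.Y840.RP.Strict
import Pool.Agent.Y840.RP.Square
set_option autoImplicit false

/-!
# The summed power bound: the constant `e` in Banach algebras, strictness, and the best constant
for the spaces of every fixed dimension (MP_e0d2b2_an, Q1)
-/

universe u

namespace Pool.Agent.Results.MP_e0d2b2_an.EveryDimension

open Pool.Agent.Results.MP_e0d2b2_an.Main

/-- `PowerBound C` says: for every nonzero complex Banach space `X`, every bounded operator `T`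
on `X` with spectrum in the open unit disc and every real `M` with `‖(zI - T)⁻¹‖ ≤ M` for all
`|z| ≥ 1`, the series `∑_{j ≥ 1} ‖T^j‖` converges and is at most `C M (M - 1)`. -/
def PowerBound (C : ℝ) : Prop :=
  ∀ (X : Type u) [NormedAddCommGroup X] [NormedSpace ℂ X] [CompleteSpace X] [Nontrivial X]
    (T : X →L[ℂ] X) (M : ℝ),
    spectrum ℂ T ⊆ Metric.ball (0 : ℂ) 1 →
    (∀ z : ℂ, 1 ≤ ‖z‖ → ‖resolvent T z‖ ≤ M) →
    Summable (fun j : ℕ => ‖T ^ (j + 1)‖) ∧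
      ∑' j : ℕ, ‖T ^ (j + 1)‖ ≤ C * M * (M - 1)

/-- The same for the complex normed spaces of dimension `d`. -/
def DimBound (d : ℕ) (C : ℝ) : Prop :=
  ∀ (X : Type u) [NormedAddCommGroup X] [NormedSpace ℂ X], Module.finrank ℂ X = d →
    ∀ (T : X →L[ℂ] X) (M : ℝ),
    spectrum ℂ T ⊆ Metric.ball (0 : ℂ) 1 →
    (∀ z : ℂ, 1 ≤ ‖z‖ → ‖resolvent T z‖ ≤ M) →
    Summable (fun j : ℕ => ‖T ^ (j + 1)‖) ∧
      ∑' j : ℕ, ‖T ^ (j + 1)‖ ≤ C * M * (M - 1)

/-- The bound `‖T‖ ≤ C M (M - 1)` for the operators `T` with `T² = 0` on the complex normed spaces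
of dimension `d` and all `M` with `‖(zI - T)⁻¹‖ ≤ M` for all `|z| ≥ 1`. -/
def SquareZeroBound (d : ℕ) (C : ℝ) : Prop :=
  ∀ (X : Type u) [NormedAddCommGroup X] [NormedSpace ℂ X], Module.finrank ℂ X = d →
    ∀ (T : X →L[ℂ] X) (M : ℝ), T * T = 0 →
    (∀ z : ℂ, 1 ≤ ‖z‖ → ‖resolvent T z‖ ≤ M) → ‖T‖ ≤ C * M * (M - 1)

/-! ### Banach algebras -/

section algebra

variable {A : Type*} [NormedRing A] [NormedAlgebra ℂ A] [CompleteSpace A] [Nontrivial A]

lemma one_le_M (a : A) (M : ℝ) (hs : spectrum ℂ a ⊆ Metric.ball (0 : ℂ) 1)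
    (hM : ∀ z : ℂ, ‖z‖ = 1 → ‖resolvent a z‖ ≤ M) : 1 ≤ M := by
  have h := pow_bound a M hs hM 0 0
  simp only [pow_zero, zero_add, pow_one, Nat.choose_zero_right, Nat.cast_one, one_mul] at h
  have h1 : (1 : ℝ) ≤ ‖(1 : A)‖ := by
    have h2 : ‖(1 : A)‖ ≤ ‖(1 : A)‖ * ‖(1 : A)‖ := by
      calc ‖(1 : A)‖ = ‖(1 : A) * 1‖ := by rw [mul_one]
        _ ≤ _ := norm_mul_le _ _
    have h3 : 0 < ‖(1 : A)‖ := norm_pos_iff.2 one_ne_zero
    by_contra h4
    push Not at h4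
    nlinarith
  exact h1.trans h

lemma algebra_bound (a : A) (M : ℝ) (hs : spectrum ℂ a ⊆ Metric.ball (0 : ℂ) 1)
    (hM : ∀ z : ℂ, ‖z‖ = 1 → ‖resolvent a z‖ ≤ M) :
    Summable (fun j : ℕ => ‖a ^ (j + 1)‖) ∧
      ∑' j : ℕ, ‖a ^ (j + 1)‖ ≤ Real.exp 1 * M * (M - 1) :=
  numeric (fun j => ‖a ^ j‖) M (one_le_M a M hs hM) (fun j => norm_nonneg _)
    (fun k j => pow_bound a M hs hM k j)

lemma norm_bound (a : A) (M : ℝ) (hs : spectrum ℂ a ⊆ Metric.ball (0 : ℂ) 1)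
    (hM : ∀ z : ℂ, ‖z‖ = 1 → ‖resolvent a z‖ ≤ M) (m : ℕ) (hm : 1 ≤ m) :
    ‖a‖ ≤ M ^ m / m := by
  have h := pow_bound a M hs hM (m - 1) 1
  have h1 : (1 + (m - 1)).choose (m - 1) = m := by
    obtain ⟨k, rfl⟩ : ∃ k, m = k + 1 := ⟨m - 1, by omega⟩
    simp [add_comm 1 k]
  rw [h1, pow_one, show m - 1 + 1 = m by omega] at h
  have hm0 : (0 : ℝ) < m := by exact_mod_cast hm
  rw [le_div_iff₀ hm0, mul_comm]
  exact h

lemma algebra_strict (a : A) (ha : a ≠ 0) (M : ℝ) (hs : spectrum ℂ a ⊆ Metric.ball (0 : ℂ) 1)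
    (hM : ∀ z : ℂ, ‖z‖ = 1 → ‖resolvent a z‖ ≤ M) :
    ∑' j : ℕ, ‖a ^ (j + 1)‖ < Real.exp 1 * M * (M - 1) := by
  have h1 := one_le_M a M hs hM
  have h2 : 1 < M := by
    rcases h1.eq_or_lt with h | h
    · exfalso
      have hpos : 0 < ‖a‖ := norm_pos_iff.2 ha
      obtain ⟨k, hk⟩ := exists_nat_gt (1 / ‖a‖)
      have hk0 : (0 : ℝ) < k := lt_trans (by positivity) hk
      have hk1 : 1 ≤ k := by exact_mod_cast hk0
      have h3 := norm_bound a M hs hM k hk1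
      rw [← h, one_pow, le_div_iff₀ hk0] at h3
      rw [div_lt_iff₀ hpos] at hk
      linarith
    · exact h
  exact Y840RP.numeric_strict (fun j => ‖a ^ j‖) M (fun j => norm_nonneg _)
    (fun k j => pow_bound a M hs hM k j) h2

end algebra

/-! ### Fixed dimension -/

lemma nontrivial_of_dim {X : Type u} [NormedAddCommGroup X] [NormedSpace ℂ X] {d : ℕ} (hd : 1 ≤ d)
    (h : Module.finrank ℂ X = d) : Nontrivial X :=
  Module.nontrivial_of_finrank_pos (R := ℂ) (by omega)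

lemma complete_of_dim {X : Type u} [NormedAddCommGroup X] [NormedSpace ℂ X] {d : ℕ} (hd : 1 ≤ d)
    (h : Module.finrank ℂ X = d) : CompleteSpace X := by
  haveI : FiniteDimensional ℂ X := Module.finite_of_finrank_pos (by omega)
  exact FiniteDimensional.complete ℂ X

lemma dim_upper (d : ℕ) (hd : 1 ≤ d) : DimBound.{u} d (Real.exp 1) := by
  intro X _ _ hX T M hs hM
  haveI := nontrivial_of_dim hd hX
  haveI := complete_of_dim hd hX
  exact algebra_bound T M hs (fun z hz => hM z hz.ge)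

lemma square_upper (d : ℕ) (hd : 1 ≤ d) (C : ℝ) (h : DimBound.{u} d C) :
    SquareZeroBound.{u} d C := by
  intro X _ _ hX T M hT hM
  obtain ⟨h1, h2⟩ := h X hX T M (Y840RP.spectrum_sub' T hT) hM
  have h3 : ‖T‖ ≤ ∑' j : ℕ, ‖T ^ (j + 1)‖ := by
    have := h1.le_tsum 0 (fun j _ => norm_nonneg _)
    simpa using this
  exact h3.trans h2

lemma square_lower (d : ℕ) (hd : 2 ≤ d) (C : ℝ) (hC : 0 < C) (h : SquareZeroBound.{u} d C) :
    Real.exp 1 ≤ C := by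
  obtain ⟨k, rfl⟩ : ∃ k, d = k + 2 := ⟨d - 2, by omega⟩
  by_contra hlt
  push Not at hlt
  have hlog : Real.log C < 1 := by
    rw [Real.log_lt_iff_lt_exp hC]; exact hlt
  set c := (1 - Real.log C) / 4 with hc
  have hc0 : 0 < c := by rw [hc]; linarith
  have : Fact (0 < c) := ⟨hc0⟩
  have h2 := h (Y840RP.XX.{u} c k) (Y840RP.finrank_XX c k) (Y840RP.TT c k) (Real.exp c)
    (Y840RP.TT_sq c k) (Y840RP.TT_resolvent c k)
  rw [Y840RP.TT_norm] at h2
  have h3 : Real.exp c - 1 ≤ c * Real.exp c := by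
    have := Real.add_one_le_exp (-c)
    have h4 : Real.exp c * (1 - c) ≤ 1 := by
      calc Real.exp c * (1 - c) ≤ Real.exp c * Real.exp (-c) := by
            apply mul_le_mul_of_nonneg_left _ (Real.exp_pos _).le
            linarith
        _ = 1 := by rw [← Real.exp_add]; simp
    linarith
  have h5 : Real.exp 1 * c ≤ (C * Real.exp (2 * c)) * c := by
    calc Real.exp 1 * c ≤ C * Real.exp c * (Real.exp c - 1) := h2
      _ ≤ C * Real.exp c * (c * Real.exp c) := by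
        apply mul_le_mul_of_nonneg_left h3 (by positivity)
      _ = (C * Real.exp (2 * c)) * c := by
        rw [two_mul, Real.exp_add]; ring
  have h6 : Real.exp 1 ≤ C * Real.exp (2 * c) := le_of_mul_le_mul_right h5 hc0
  have h7 : Real.exp 1 ≤ Real.exp (Real.log C + 2 * c) := by
    rw [Real.exp_add, Real.exp_log hC]; exact h6
  have h8 := Real.exp_le_exp.1 h7
  rw [hc] at h8
  linarith

/-! ### Dimension one -/

lemma scalar_of_dim_one {X : Type u} [NormedAddCommGroup X] [NormedSpace ℂ X]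
    (h : Module.finrank ℂ X = 1) (T : X →L[ℂ] X) : ∃ l : ℂ, T = l • 1 := by
  haveI := nontrivial_of_dim le_rfl h
  obtain ⟨x, hx⟩ := exists_ne (0 : X)
  obtain ⟨l, hl⟩ := exists_smul_eq_of_finrank_eq_one h hx (T x)
  refine ⟨l, ContinuousLinearMap.ext fun y => ?_⟩
  obtain ⟨c, rfl⟩ := exists_smul_eq_of_finrank_eq_one h hx y
  rw [map_smul, ← hl]
  simp [smul_smul, mul_comm]

lemma resolvent_scalar {X : Type u} [NormedAddCommGroup X] [NormedSpace ℂ X] (l z : ℂ)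
    (h : z ≠ l) : resolvent (l • (1 : X →L[ℂ] X)) z = (z - l)⁻¹ • 1 := by
  have h0 : z - l ≠ 0 := sub_ne_zero.2 h
  have e : algebraMap ℂ (X →L[ℂ] X) z - l • 1 = (z - l) • 1 := by
    rw [Algebra.algebraMap_eq_smul_one, sub_smul]
  have h1 : (algebraMap ℂ (X →L[ℂ] X) z - l • 1) * ((z - l)⁻¹ • 1) = 1 := by
    rw [e, smul_mul_smul_comm, mul_inv_cancel₀ h0, one_smul, one_mul]
  have h2 : ((z - l)⁻¹ • (1 : X →L[ℂ] X)) * (algebraMap ℂ (X →L[ℂ] X) z - l • 1) = 1 := by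
    rw [e, smul_mul_smul_comm, inv_mul_cancel₀ h0, one_smul, one_mul]
  exact Ring.inverse_unit ⟨_, _, h1, h2⟩

lemma spectrum_scalar {X : Type u} [NormedAddCommGroup X] [NormedSpace ℂ X] (l : ℂ)
    (hl : ‖l‖ < 1) : spectrum ℂ (l • (1 : X →L[ℂ] X)) ⊆ Metric.ball (0 : ℂ) 1 := by
  intro z hz
  by_contra hz'
  rw [mem_ball_zero_iff, not_lt] at hz'
  have hne : z ≠ l := by
    rintro rfl
    linarith
  apply hz
  have h0 : z - l ≠ 0 := sub_ne_zero.2 hne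
  have e : algebraMap ℂ (X →L[ℂ] X) z - l • 1 = algebraMap ℂ (X →L[ℂ] X) (z - l) := by
    rw [Algebra.algebraMap_eq_smul_one, Algebra.algebraMap_eq_smul_one, sub_smul]
  rw [spectrum.mem_resolventSet_iff, e]
  exact (isUnit_iff_ne_zero.2 h0).map (algebraMap ℂ (X →L[ℂ] X))

lemma norm_smul_one {X : Type u} [NormedAddCommGroup X] [NormedSpace ℂ X] [Nontrivial X] (l : ℂ) :
    ‖l • (1 : X →L[ℂ] X)‖ = ‖l‖ := by
  rw [norm_smul, norm_one, mul_one]

lemma norm_scalar_pow {X : Type u} [NormedAddCommGroup X] [NormedSpace ℂ X] [Nontrivial X] (l : ℂ)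
    (j : ℕ) : ‖(l • (1 : X →L[ℂ] X)) ^ (j + 1)‖ = ‖l‖ ^ (j + 1) := by
  rw [smul_pow, one_pow, norm_smul_one, norm_pow]

lemma tsum_norm_pow {r : ℝ} (h0 : 0 ≤ r) (h1 : r < 1) :
    Summable (fun j : ℕ => r ^ (j + 1)) ∧ ∑' j : ℕ, r ^ (j + 1) = r / (1 - r) := by
  have h : HasSum (fun j : ℕ => r ^ (j + 1)) (r / (1 - r)) := by
    have := (hasSum_geometric_of_lt_one h0 h1).mul_left r
    simpa [pow_succ, mul_comm, div_eq_mul_inv] using this
  exact ⟨h.summable, h.tsum_eq⟩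

lemma one_upper : DimBound.{u} 1 1 := by
  intro X _ _ hX T M hs hM
  haveI := nontrivial_of_dim le_rfl hX
  obtain ⟨l, rfl⟩ := scalar_of_dim_one hX T
  have hl : ‖l‖ < 1 := by
    have h1 : l ∈ spectrum ℂ (l • (1 : X →L[ℂ] X)) := by
      rw [spectrum.mem_iff, Algebra.algebraMap_eq_smul_one, sub_self]
      exact not_isUnit_zero
    simpa using hs h1
  have hpow : ∀ j : ℕ, ‖(l • (1 : X →L[ℂ] X)) ^ (j + 1)‖ = ‖l‖ ^ (j + 1) := by
    intro j
    rw [smul_pow, one_pow, norm_smul_one, norm_pow]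
  obtain ⟨s1, s2⟩ := tsum_norm_pow (norm_nonneg l) hl
  simp_rw [hpow]
  refine ⟨s1, ?_⟩
  rw [s2]
  -- the value of `M`
  obtain ⟨z, hz1, hz2⟩ : ∃ z : ℂ, ‖z‖ = 1 ∧ ‖z - l‖ = 1 - ‖l‖ := by
    rcases eq_or_ne l 0 with h | h
    · exact ⟨1, by simp, by simp [h]⟩
    · have hn : (0 : ℝ) < ‖l‖ := norm_pos_iff.2 h
      refine ⟨((‖l‖⁻¹ : ℝ) : ℂ) * l, ?_, ?_⟩
      · rw [norm_mul, Complex.norm_real, norm_inv, norm_norm, inv_mul_cancel₀ hn.ne']
      · have e : ((‖l‖⁻¹ : ℝ) : ℂ) * l - l = ((‖l‖⁻¹ - 1 : ℝ) : ℂ) * l := by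
          push_cast; ring
        have h1 : 0 ≤ ‖l‖⁻¹ - 1 := by
          have := (one_lt_inv₀ hn).2 hl
          linarith
        rw [e, norm_mul, Complex.norm_real, Real.norm_of_nonneg h1, sub_mul,
          inv_mul_cancel₀ hn.ne', one_mul]
  have hne : z ≠ l := by
    rintro rfl
    rw [sub_self, norm_zero] at hz2
    linarith
  have h3 := hM z hz1.ge
  rw [resolvent_scalar l z hne, norm_smul_one, norm_inv, hz2] at h3
  have h4 : (0 : ℝ) < 1 - ‖l‖ := by linarith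
  have h5 : ‖l‖ / (1 - ‖l‖) = (1 - ‖l‖)⁻¹ - 1 := by field_simp; ring
  have h6 : (1 : ℝ) ≤ (1 - ‖l‖)⁻¹ := by
    rw [one_le_inv₀ h4]
    linarith [norm_nonneg l]
  rw [h5]
  nlinarith

lemma one_lower (C : ℝ) (hC : 0 < C) (h : DimBound.{u} 1 C) : 1 ≤ C := by
  by_contra hlt
  push Not at hlt
  set r : ℝ := (1 - C) / 2 with hr
  have hr0 : 0 < r := by rw [hr]; linarith
  have hr1 : r < 1 := by rw [hr]; linarith
  have hX : Module.finrank ℂ (ULift.{u} ℂ) = 1 := by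
    rw [(ULift.moduleEquiv (R := ℂ) (M := ℂ)).finrank_eq, Module.finrank_self]
  have hn : ‖(r : ℂ)‖ = r := by rw [Complex.norm_real, Real.norm_of_nonneg hr0.le]
  have hres : ∀ z : ℂ, 1 ≤ ‖z‖ →
      ‖resolvent ((r : ℂ) • (1 : ULift.{u} ℂ →L[ℂ] ULift.{u} ℂ)) z‖ ≤ (1 - r)⁻¹ := by
    intro z hz
    have h1 : 1 - r ≤ ‖z - r‖ := by
      have := norm_sub_norm_le z (r : ℂ)
      rw [hn] at this
      linarith
    have hne : z ≠ (r : ℂ) := by
      rintro rfl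
      rw [hn] at hz
      linarith
    rw [resolvent_scalar _ z hne, norm_smul_one, norm_inv]
    exact inv_anti₀ (by linarith) h1
  have hs : spectrum ℂ ((r : ℂ) • (1 : ULift.{u} ℂ →L[ℂ] ULift.{u} ℂ)) ⊆ Metric.ball (0 : ℂ) 1 :=
    spectrum_scalar _ (by rw [hn]; exact hr1)
  obtain ⟨-, h2⟩ := h (ULift.{u} ℂ) hX ((r : ℂ) • 1) (1 - r)⁻¹ hs hres
  have hpow : ∀ j : ℕ, ‖((r : ℂ) • (1 : ULift.{u} ℂ →L[ℂ] ULift.{u} ℂ)) ^ (j + 1)‖
      = r ^ (j + 1) := by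
    intro j
    have h0 := norm_scalar_pow (X := ULift.{u} ℂ) (r : ℂ) j
    rw [hn] at h0
    exact h0
  simp_rw [hpow] at h2
  rw [(tsum_norm_pow hr0.le hr1).2] at h2
  have h4 : (0 : ℝ) < 1 - r := by linarith
  have h5 : C * (1 - r)⁻¹ * ((1 - r)⁻¹ - 1) = C * (1 - r)⁻¹ * (r / (1 - r)) := by
    congr 1
    field_simp
    ring
  rw [h5] at h2
  have h6 : 0 < r / (1 - r) := by positivity
  have h7 : 1 ≤ C * (1 - r)⁻¹ := by
    have : 1 * (r / (1 - r)) ≤ C * (1 - r)⁻¹ * (r / (1 - r)) := by rwa [one_mul]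
    exact le_of_mul_le_mul_right this h6
  rw [← div_eq_mul_inv, le_div_iff₀ h4] at h7
  rw [hr] at h7
  linarith

/-- **The best constant is `e`; in Banach algebras; in every dimension.** -/
theorem result :
    -- the answer to Q1
    IsLeast {C : ℝ | 0 < C ∧ PowerBound.{u} C} (Real.exp 1) ∧
    -- elements of complex Banach algebras, resolvent bound on the unit circle only; strictness
    (∀ (A : Type u) [NormedRing A] [NormedAlgebra ℂ A] [CompleteSpace A] [Nontrivial A] (a : A)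
      (M : ℝ), spectrum ℂ a ⊆ Metric.ball (0 : ℂ) 1 →
      (∀ z : ℂ, ‖z‖ = 1 → ‖resolvent a z‖ ≤ M) →
      Summable (fun j : ℕ => ‖a ^ (j + 1)‖) ∧
      ∑' j : ℕ, ‖a ^ (j + 1)‖ ≤ Real.exp 1 * M * (M - 1) ∧
      (a ≠ 0 → ∑' j : ℕ, ‖a ^ (j + 1)‖ < Real.exp 1 * M * (M - 1)) ∧
      ∀ m : ℕ, 1 ≤ m → ‖a‖ ≤ M ^ m / m) ∧
    -- the spaces of dimension `d`: the best constant is `e` for every `d ≥ 2`, already for
    -- operators with square zero, and `1` for `d = 1`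
    (∀ d : ℕ, 2 ≤ d → IsLeast {C : ℝ | 0 < C ∧ DimBound.{u} d C} (Real.exp 1) ∧
      IsLeast {C : ℝ | 0 < C ∧ SquareZeroBound.{u} d C} (Real.exp 1)) ∧
    IsLeast {C : ℝ | 0 < C ∧ DimBound.{u} 1 C} 1 ∧
    -- in each dimension `d ≥ 2` and for each `c > 0` an operator with square zero and norm `e c`
    -- whose resolvent is bounded by `M = e ^ c`; for `c = 1 / m` its norm `M ^ m / m` is maximal
    ∀ d : ℕ, 2 ≤ d → ∀ c : ℝ, 0 < c →
      ∃ (X : Type u) (_ : NormedAddCommGroup X) (_ : NormedSpace ℂ X) (T : X →L[ℂ] X),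
        Module.finrank ℂ X = d ∧ T * T = 0 ∧
        (∀ z : ℂ, 1 ≤ ‖z‖ → ‖resolvent T z‖ ≤ Real.exp c) ∧ ‖T‖ = Real.exp 1 * c := by
  refine ⟨Main.result, ?_, ?_, ⟨⟨one_pos, one_upper⟩, fun C hC => one_lower C hC.1 hC.2⟩, ?_⟩
  · intro A _ _ _ _ a M hs hM
    obtain ⟨h1, h2⟩ := algebra_bound a M hs hM
    exact ⟨h1, h2, fun ha => algebra_strict a ha M hs hM, norm_bound a M hs hM⟩
  · intro d hd
    refine ⟨⟨⟨Real.exp_pos 1, dim_upper d (by omega)⟩, fun C hC =>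
      square_lower d hd C hC.1 (square_upper d (by omega) C hC.2)⟩,
      ⟨⟨Real.exp_pos 1, square_upper d (by omega) _ (dim_upper d (by omega))⟩, fun C hC =>
      square_lower d hd C hC.1 hC.2⟩⟩
  · intro d hd c hc
    obtain ⟨k, rfl⟩ : ∃ k, d = k + 2 := ⟨d - 2, by omega⟩
    haveI : Fact (0 < c) := ⟨hc⟩
    exact ⟨Y840RP.XX.{u} c k, inferInstance, inferInstance, Y840RP.TT c k,
      Y840RP.finrank_XX c k, Y840RP.TT_sq c k, Y840RP.TT_resolvent c k, Y840RP.TT_norm c k⟩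

end Pool.Agent.Results.MP_e0d2b2_an.EveryDimension
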